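import Pool.Agent.P.MP_9bb6b5_al.House
import Pool.Agent.Results.MP_9bb6b5_al.TotallyReal

set_option autoImplicit false

namespace Pool.Agent.Results.MP_9bb6b5_al.Trinomials

open Polynomial Finset Pool.Agent.P.MP_9bb6b5_al IntermediateField

theorem nonneg_tri {a : ℝ} (ha : 0 ≤ a) (k n i : ℕ) :
    0 ≤ (1 + C a * X ^ k + X ^ n : ℝ[X]).coeff i := by
  simp only [coeff_add, coeff_C_mul, coeff_X_pow, coeff_one]
  positivity

theorem numeric {k n : ℕ} (hk : 0 < k) (hkn : k < n) (hn : 12 * k * Real.log n ^ 2 ≤ n) :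
    ∃ J : ℕ, 3 ≤ J ∧ (J + 1) * k < n ∧ 8 ≤ Real.log (14 * n) ∧
      4 ≤ (15 / 2 * Real.log (14 * n))⁻¹ * (1 + (15 / 2 * Real.log (14 * n))⁻¹) ^ J := by
  have l2 := Real.log_two_gt_d9
  have l2' := Real.log_two_lt_d9
  have k1 : (1 : ℝ) ≤ k := by exact_mod_cast hk
  have step : ∀ j : ℕ, 2 ^ j ≤ n → j * Real.log 2 ≤ Real.log n := fun j hj => by
    rw [← Real.log_pow]
    exact Real.log_le_log (by positivity) (by exact_mod_cast hj)
  have up : ∀ j : ℕ, 2 ^ j ≤ n → 12 * (j * 0.69) ^ 2 ≤ (n : ℝ) := fun j hj => by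
    have h1 : j * 0.69 ≤ Real.log n := le_trans (by gcongr; linarith) (step j hj)
    have h2 : (j * 0.69 : ℝ) ^ 2 ≤ Real.log n ^ 2 := by gcongr
    nlinarith [sq_nonneg (Real.log n)]
  have c1 : 4 ≤ n := by
    have := up 1 (by omega)
    exact_mod_cast (show ((4 : ℕ) : ℝ) ≤ n by push_cast at this ⊢; linarith)
  have c2 : 16 ≤ n := by
    have := up 2 c1
    exact_mod_cast (show ((16 : ℕ) : ℝ) ≤ n by push_cast at this ⊢; linarith)
  have c3 : 64 ≤ n := by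
    have := up 4 c2
    exact_mod_cast (show ((64 : ℕ) : ℝ) ≤ n by push_cast at this ⊢; linarith)
  have c4 : 128 ≤ n := by
    have := up 6 c3
    exact_mod_cast (show ((128 : ℕ) : ℝ) ≤ n by push_cast at this ⊢; linarith)
  have c5 : 256 ≤ n := by
    have := up 7 c4
    exact_mod_cast (show ((256 : ℕ) : ℝ) ≤ n by push_cast at this ⊢; linarith)
  have y1 := step 8 c5
  have n0 : (0 : ℝ) < n := by exact_mod_cast (by omega : 0 < n)
  have l14 : Real.log 14 ≤ 4 * Real.log 2 := by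
    rw [show 4 * Real.log 2 = Real.log (2 ^ 4) by rw [Real.log_pow]; norm_num]
    exact Real.log_le_log (by norm_num) (by norm_num)
  have l14' : 4 * Real.log 2 - 1 / 7 ≤ Real.log 14 := by
    have := Real.log_le_sub_one_of_pos (x := 2 ^ 4 / 14) (by norm_num)
    rw [Real.log_div (by norm_num) (by norm_num), Real.log_pow] at this
    push_cast at this
    linarith
  have hL : Real.log (14 * n) = Real.log 14 + Real.log n := Real.log_mul (by norm_num) n0.ne'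
  set y := Real.log n
  set L := Real.log (14 * n)
  push_cast at y1
  have L8 : 8 ≤ L := by linarith
  obtain ⟨J, hJ⟩ : ∃ J, (n - 1) / k = J + 1 :=
    Nat.exists_eq_succ_of_ne_zero (Nat.div_pos (by omega) hk).ne'
  have j1 : (J + 1) * k ≤ n - 1 := hJ ▸ Nat.div_mul_le_self _ _
  have j2 : n - 1 < (J + 1 + 1) * k := hJ ▸ (Nat.div_lt_iff_lt_mul hk).1 (Nat.lt_succ_self _)
  have j3 : 12 * y ^ 2 ≤ J + 2 := by
    have : (n : ℝ) ≤ (J + 2) * k := by exact_mod_cast (by omega : n ≤ (J + 1 + 1) * k)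
    refine le_of_mul_le_mul_right ?_ (show (0 : ℝ) < k by linarith)
    linarith
  refine ⟨J, ?_, by omega, L8, ?_⟩
  · exact_mod_cast (show ((3 : ℕ) : ℝ) ≤ J by push_cast; nlinarith)
  have M0 : 0 < 15 / 2 * L := by linarith
  have a1 : (15 / 2 * L + 1)⁻¹ ≤ Real.log (1 + (15 / 2 * L)⁻¹) := by
    refine le_trans (le_of_eq ?_) (Real.one_sub_inv_le_log_of_pos (by positivity))
    field_simp
    ring
  have a2 : Real.log (30 * L) ≤ 8 * Real.log 2 - 1 + 30 / 256 * L := by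
    have := Real.log_le_sub_one_of_pos (x := 30 * L / 2 ^ 8) (by positivity)
    rw [Real.log_div (by positivity) (by norm_num), Real.log_pow] at this
    push_cast at this
    linarith
  have a3 : Real.log (30 * L) ≤ J * (15 / 2 * L + 1)⁻¹ := by
    rw [← div_eq_mul_inv, le_div_iff₀ (by linarith)]
    refine (mul_le_mul_of_nonneg_right a2 (by linarith)).trans ?_
    have b1 : L ≤ y + 2.78 := by linarith
    have b2 : (8 * Real.log 2 - 1 + 30 / 256 * L) * (15 / 2 * L + 1) ≤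
        (4.55 + 30 / 256 * (y + 2.78)) * (15 / 2 * (y + 2.78) + 1) := by
      gcongr
      linarith
    nlinarith
  have a4 : 30 * L ≤ (1 + (15 / 2 * L)⁻¹) ^ J := by
    rw [← Real.log_le_log_iff (by positivity) (by positivity), Real.log_pow]
    exact a3.trans (by gcongr)
  rw [← div_eq_inv_mul, le_div_iff₀ M0]
  linarith

theorem no_frac {a : ℝ} {k n : ℕ} {Q : ℝ[X]} (hk : 0 < k) (hkn : k < n)
    (hn : 12 * k * Real.log n ^ 2 ≤ n) (a0 : 0 < a) (a1 : a < 1) (hQ : Q.Monic)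
    (hq : ∀ i, 0 ≤ Q.coeff i) (h0 : Q.coeff 0 = 1)
    (hR : ∀ i, ((1 + C a * X ^ k + X ^ n) * Q).coeff i = 0 ∨
      ((1 + C a * X ^ k + X ^ n) * Q).coeff i = 1) : False := by
  obtain ⟨J, J3, hJ, L8, hε⟩ := numeric hk hkn hn
  have k4 : 4 * k ≤ n := le_trans (Nat.mul_le_mul_right k (by omega)) hJ.le
  have ah := le_half hk (by omega) a0 a1 hq h0 hR
  have ch := chain hk a0 a1 hq h0 hR (J + 1) hJ
  have hP := (monic_tri a hkn).1
  have ia : IsIntegral ℤ a := by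
    simpa [coeff_one, hk.ne', hkn.ne] using isIntegral_coeff hP hQ hR k
  have ia' : IsIntegral ℚ a := ia.tower_top
  have := adjoin.finiteDimensional ia'
  let g : ℚ⟮a⟯ := AdjoinSimple.gen ℚ a
  have hg : algebraMap ℚ⟮a⟯ ℝ g = a := rfl
  have inj := (algebraMap ℚ⟮a⟯ ℝ).injective
  obtain ⟨R, hR1⟩ := (mem_lifts _).1 ((lifts_iff_coeff_lifts (f := algebraMap ℤ ℝ)
    ((1 + C a * X ^ k + X ^ n) * Q)).2 fun n => by
      rcases hR n with h | h <;> rw [h]
      exacts [⟨0, by simp⟩, ⟨1, by simp⟩])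
  have R01 : ∀ i, R.coeff i = 0 ∨ R.coeff i = 1 := fun i => by
    have := hR i
    rw [← hR1, coeff_map] at this
    simpa using this
  have R0 : R.coeff 0 = 1 := by
    have := congrArg (coeff · 0) hR1
    simp only [coeff_tri_mul, coeff_map, h0] at this
    rw [if_neg (by omega), if_neg (by omega)] at this
    simpa using this
  have mP : (1 + C g * X ^ k + X ^ n).map (algebraMap ℚ⟮a⟯ ℝ) = 1 + C a * X ^ k + X ^ n := by
    simp [hg]
  obtain ⟨Q', hQ', e⟩ : ∃ Q' : ℚ⟮a⟯[X], Q'.map (algebraMap ℚ⟮a⟯ ℝ) = Q ∧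
      (1 + C g * X ^ k + X ^ n) * Q' = R.map (Int.castRingHom _) := by
    have h1 : (R.map (Int.castRingHom ℚ⟮a⟯)).map (algebraMap ℚ⟮a⟯ ℝ) =
        (1 + C a * X ^ k + X ^ n) * Q := by
      rw [Polynomial.map_map, ← hR1]
      congr 1
    have h2 : (R.map (Int.castRingHom ℚ⟮a⟯) /ₘ (1 + C g * X ^ k + X ^ n)).map
        (algebraMap ℚ⟮a⟯ ℝ) = Q := by
      rw [map_divByMonic _ (monic_tri g hkn).1, h1, mP, mul_divByMonic_cancel_left _ hP]
    exact ⟨_, h2, map_injective _ inj (by rw [Polynomial.map_mul, h1, h2, mP])⟩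
  have ch' : (1 + g) * Q'.coeff ((J + 1) * k) = 1 - (-g) ^ (J + 2) := inj (by
    rw [map_mul, ← coeff_map, hQ', map_add, map_sub, map_pow, map_neg, map_one, hg]
    exact ch)
  have e' : ∀ σ : ℚ⟮a⟯ →ₐ[ℚ] ℂ, (1 + C (σ g) * X ^ k + X ^ n) * Q'.map σ =
      R.map (Int.castRingHom ℂ) := fun σ => by
    have := congrArg (Polynomial.map (σ : ℚ⟮a⟯ →+* ℂ)) e
    rw [Polynomial.map_map, RingHom.eq_intCast' (RingHom.comp _ _)] at this
    simpa using this
  have R1 : ∀ i, ‖(R.map (Int.castRingHom ℂ)).coeff i‖ ≤ 1 := fun i => by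
    rcases R01 i with h | h <;> simp [h]
  set L := Real.log (14 * n)
  set ε := (15 / 2 * L)⁻¹ with hεd
  have ε0 : 0 < ε := by positivity
  have εL : ε * L = 2 / 15 := by rw [hεd]; field_simp
  have ε1 : ε ≤ 1 / 60 := by nlinarith
  have hs : ∀ σ : ℚ⟮a⟯ →ₐ[ℚ] ℂ, ‖σ g‖ < (1 + ε) ^ 2 := fun σ =>
    house_lt hk hJ (Q := Q'.map σ) (by rw [e']; exact R1) (by simpa using congrArg σ ch') ε0
      (by linarith) hε
  have g0 : g ≠ 0 := fun h => a0.ne' (by rw [← hg, h, map_zero])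
  have np := one_le_prod_norm ((isIntegral_algebraMap_iff (x := g) inj).1 ia) g0
  have cb := card_bound (z := fun σ : ℚ⟮a⟯ →ₐ[ℚ] ℂ => σ g)
    (fun σ τ h => (adjoin.powerBasis ia').algHom_ext h) hk k4 R1 (by simp [R0])
    (fun σ => ⟨_, (e' σ).symm⟩) (fun σ => (hs σ).le.trans (by nlinarith)) np
  classical
  let σ₀ : ℚ⟮a⟯ →ₐ[ℚ] ℂ := (Complex.ofRealAm.restrictScalars ℚ).comp (ℚ⟮a⟯).val
  have s0 : ‖σ₀ g‖ = a := by
    show ‖(a : ℂ)‖ = a
    rw [Complex.norm_real, Real.norm_of_nonneg a0.le]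
  rw [← mul_prod_erase univ _ (mem_univ σ₀), s0] at np
  have p1 : ∏ σ ∈ univ.erase σ₀, ‖σ g‖ ≤
      Real.exp (Fintype.card (ℚ⟮a⟯ →ₐ[ℚ] ℂ) * (2 * ε)) := by
    refine (prod_le_prod (g := fun _ => Real.exp (2 * ε)) (fun _ _ => norm_nonneg _)
      fun σ _ => (hs σ).le.trans ?_).trans ?_
    · rw [two_mul, Real.exp_add, sq]
      gcongr <;> linarith [Real.add_one_le_exp ε]
    · rw [prod_const, ← Real.exp_nat_mul]
      gcongr
      exact card_le_univ _
  have p2 : 2 ≤ Real.exp (Fintype.card (ℚ⟮a⟯ →ₐ[ℚ] ℂ) * (2 * ε)) := by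
    nlinarith [prod_nonneg fun σ (_ : σ ∈ univ.erase σ₀) => norm_nonneg (σ g)]
  have p3 := (Real.log_le_iff_le_exp two_pos).2 p2
  nlinarith [Real.log_two_gt_d9]

theorem reverse_tri (a : ℝ) {k n : ℕ} (hkn : k < n) :
    (1 + C a * X ^ k + X ^ n : ℝ[X]).reverse = 1 + C a * X ^ (n - k) + X ^ n := by
  rw [reverse, (monic_tri a hkn).2, reflect_add, reflect_add, reflect_C_mul_X_pow, reflect_one,
    reflect_monomial, revAt_le hkn.le, revAt_le le_rfl, tsub_self, pow_zero]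
  ring

theorem rev {a : ℝ} {k n : ℕ} {Q : ℝ[X]} (hkn : k < n) (ha : 0 ≤ a) (hQ : Q.Monic)
    (hq : ∀ i, 0 ≤ Q.coeff i) (hR : ∀ i, ((1 + C a * X ^ k + X ^ n) * Q).coeff i = 0 ∨
      ((1 + C a * X ^ k + X ^ n) * Q).coeff i = 1) :
    Q.reverse.Monic ∧ (∀ i, 0 ≤ Q.reverse.coeff i) ∧ Q.reverse.coeff 0 = 1 ∧
      ∀ i, ((1 + C a * X ^ (n - k) + X ^ n) * Q.reverse).coeff i = 0 ∨
        ((1 + C a * X ^ (n - k) + X ^ n) * Q.reverse).coeff i = 1 := by
  refine ⟨?_, fun i => by rw [coeff_reverse]; exact hq _, by rw [coeff_zero_reverse, hQ], fun i => ?_⟩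
  · rw [Monic, reverse_leadingCoeff]
    exact trailing_eq_one hQ (monic_tri a hkn).1 hq (nonneg_tri ha k n) (by rwa [mul_comm])
  · rw [← reverse_tri a hkn, ← reverse_mul_of_domain, coeff_reverse]
    exact hR _

/-- The conjecture for the trinomials `1 + a X ^ k + X ^ n` with `min k (n - k)` small. -/
theorem result (a : ℝ) (k n : ℕ) (Q : ℝ[X]) (hk : 0 < k) (hkn : k < n)
    (hn : 12 * (min k (n - k) : ℕ) * Real.log n ^ 2 ≤ n) (ha : 0 ≤ a) (hQ : Q.Monic)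
    (hq : ∀ i, 0 ≤ Q.coeff i)
    (hR : ∀ i, ((1 + C a * X ^ k + X ^ n) * Q).coeff i = 0 ∨
      ((1 + C a * X ^ k + X ^ n) * Q).coeff i = 1) :
    (a = 0 ∨ a = 1) ∧ ∀ i, Q.coeff i = 0 ∨ Q.coeff i = 1 := by
  have hP := (monic_tri a hkn).1
  have h1 : a = 0 ∨ a = 1 := by
    by_contra hc
    push Not at hc
    have a0 : 0 < a := lt_of_le_of_ne ha hc.1.symm
    have a1 : a < 1 := lt_of_le_of_ne (by
      simpa [coeff_one, hk.ne', hkn.ne] using coeff_le_one hQ (nonneg_tri ha k n) hq hR k) hc.2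
    obtain ⟨m1, m2, m3, m4⟩ := rev hkn ha hQ hq hR
    rcases le_total k (n - k) with c | c
    · obtain ⟨l1, l2, l3, l4⟩ := rev (by omega : n - k < n) ha m1 m2 m4
      rw [Nat.sub_sub_self hkn.le] at l4
      exact no_frac hk hkn (by rwa [min_eq_left c] at hn) a0 a1 l1 l2 l3 l4
    · exact no_frac (by omega) (by omega) (by rwa [min_eq_right c] at hn) a0 a1 m1 m2 m3 m4
  refine ⟨h1, (TotallyReal.result _ Q hP hQ (nonneg_tri ha k n) hq hR fun i => ?_).2⟩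
  obtain ⟨c, hc⟩ : ∃ c : ℚ, (1 + C a * X ^ k + X ^ n : ℝ[X]).coeff i = algebraMap ℚ ℝ c := by
    rcases h1 with rfl | rfl
    · exact ⟨(1 + C 0 * X ^ k + X ^ n : ℚ[X]).coeff i, by rw [← coeff_map]; simp⟩
    · exact ⟨(1 + C 1 * X ^ k + X ^ n : ℚ[X]).coeff i, by rw [← coeff_map]; simp⟩
  rw [hc, minpoly.eq_X_sub_C]
  simp

end Pool.Agent.Results.MP_9bb6b5_al.Trinomials
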